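import Pool.Agent.Helper43.RP.Goals
import Pool.Agent.Helper22.FE.LB

/-!
# Packet RP-LB (project RP, MP_f5847d_nt): lower bound of a nonzero value by denominators and
common factors
-/

set_option autoImplicit false

namespace Pool.Agent.Helper71.RP.LB

open Finset Pool.Agent.Helper22.FSU Pool.Agent.Helper50.FE Pool.Agent.Helper43.RP

theorem RR_dvd (lo n : ℕ) : RR lo n ∣ n.factorial := by
  have h : n.factorial = ∏ q ∈ n.factorial.primeFactors, q ^ (n.factorial.factorization q) := by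
    conv_lhs => rw [← Nat.prod_factorization_pow_eq_self (Nat.factorial_ne_zero n)]
    rfl
  rw [h]
  unfold RR
  refine Finset.prod_dvd_prod_of_subset _ _ _ fun q hq => ?_
  rw [Finset.mem_filter, Finset.mem_Ioc] at hq
  rw [Nat.mem_primeFactors]
  exact ⟨hq.2, (hq.2.dvd_factorial).2 hq.1.2, Nat.factorial_ne_zero n⟩

theorem RR_coprime (lo n lo' n' : ℕ) (h : n ≤ lo') : Nat.Coprime (RR lo n) (RR lo' n') := by
  unfold RR
  refine Nat.Coprime.prod_left fun q hq => Nat.Coprime.prod_right fun q' hq' => ?_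
  rw [Finset.mem_filter, Finset.mem_Ioc] at hq hq'
  refine Nat.coprime_pow_primes _ _ hq.2 hq'.2 ?_
  have h1 := hq.1.2
  have h2 := hq'.1.1
  omega

theorem one_dvd {m : ℕ} (n lo : Fin m → ℕ) (e a G : Fin m → ℕ) (i : Fin m)
    (h : G i ≤ ∑ j ∈ Finset.univ.filter (fun j => i ≤ j), (a j - e j) * (n j / n i)) :
    RR (lo i) (n i) ^ (G i) ∣ ∏ j, ((n j).factorial) ^ (a j - e j) := by
  refine (pow_dvd_pow _ h).trans ?_
  rw [← Finset.prod_pow_eq_pow_sum]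
  refine (Finset.prod_dvd_prod_of_dvd _ (fun j => ((n j).factorial) ^ (a j - e j))
    fun j _ => ?_).trans (Finset.prod_dvd_prod_of_subset _ _ _ (Finset.filter_subset _ _))
  rw [mul_comm, pow_mul]
  refine pow_dvd_pow_of_dvd ?_ _
  exact (pow_dvd_pow_of_dvd (RR_dvd (lo i) (n i)) _).trans
    (Pool.Agent.Helper22.FE.fact_dvd (n i) (n j))

theorem all_dvd {m : ℕ} (n lo : Fin m → ℕ) (e a G : Fin m → ℕ)
    (hlo : ∀ i j, i < j → n i ≤ lo j)
    (h : ∀ i, G i ≤ ∑ j ∈ Finset.univ.filter (fun j => i ≤ j), (a j - e j) * (n j / n i)) :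
    ∏ i, RR (lo i) (n i) ^ (G i) ∣ ∏ j, ((n j).factorial) ^ (a j - e j) := by
  refine Finset.prod_dvd_of_isRelPrime ?_ fun i _ => one_dvd n lo e a G i (h i)
  intro i _ j _ hij
  change IsRelPrime _ _
  rw [← Nat.coprime_iff_isRelPrime]
  refine Nat.Coprime.pow _ _ ?_
  rcases lt_or_gt_of_ne hij with h1 | h1
  · exact RR_coprime _ _ _ _ (hlo i j h1)
  · exact (RR_coprime _ _ _ _ (hlo j i h1)).symm

theorem term_int2 {S : Finset ℕ} (hS : ∀ p ∈ S, Nat.Prime p) {m : ℕ} (c : (Fin m → ℕ) → ℤ)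
    (n lo : Fin m → ℕ) (k : Fin m → ℕ → ℕ) (e : Fin m → ℕ) (E : ℕ → ℕ) (G : Fin m → ℕ)
    (hlo : ∀ i j, i < j → n i ≤ lo j) (a : Fin m → ℕ)
    (h : c a ≠ 0 → (∀ i, e i ≤ a i) →
      (∀ p ∈ S, ∑ i, (a i - e i) * k i p ≤ E p) ∧
      ∀ i, G i ≤ ∑ j ∈ Finset.univ.filter (fun j => i ≤ j), (a j - e j) * (n j / n i)) :
    ∃ z : ℤ, (su S E : ℚ) * ((c a : ℚ) * ∏ i, ((((a i).choose (e i) : ℕ) : ℚ) *
      (((n i).factorial : ℚ) / (su S (k i) : ℚ)) ^ (a i - e i))) =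
      ((∏ i, RR (lo i) (n i) ^ (G i) : ℕ) : ℚ) * (z : ℚ) := by
  by_cases hc : c a = 0
  · exact ⟨0, by simp [hc]⟩
  by_cases he : ∀ i, e i ≤ a i
  · obtain ⟨h1, h2⟩ := h hc he
    have hA := all_dvd n lo e a G hlo h2
    have hB : ∏ i, (su S (k i)) ^ (a i - e i) ∣ su S E := by
      rw [prod_su_pow]
      unfold su
      refine Finset.prod_dvd_prod_of_dvd _ _ fun p hp => pow_dvd_pow _ (h1 p hp)
    obtain ⟨A, hA⟩ := hA
    obtain ⟨B, hB⟩ := hB
    refine ⟨c a * (∏ i, (((a i).choose (e i) : ℕ) : ℤ)) * A * B, ?_⟩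
    have hp : (∏ i, ((su S (k i) : ℚ)) ^ (a i - e i)) ≠ 0 := by
      refine Finset.prod_ne_zero_iff.2 fun i _ => pow_ne_zero _ ?_
      exact_mod_cast (su_pos hS (k i)).ne'
    have hA' : (∏ i, (((n i).factorial : ℚ)) ^ (a i - e i)) =
        ((∏ i, RR (lo i) (n i) ^ (G i) : ℕ) : ℚ) * (A : ℚ) := by exact_mod_cast hA
    have hB' : (su S E : ℚ) = (∏ i, ((su S (k i) : ℚ)) ^ (a i - e i)) * (B : ℚ) := by
      exact_mod_cast hB
    rw [Finset.prod_mul_distrib]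
    simp_rw [div_pow]
    rw [Finset.prod_div_distrib, hA', hB']
    generalize ((∏ i, RR (lo i) (n i) ^ (G i) : ℕ) : ℚ) = R
    push_cast
    field_simp
  · push Not at he
    obtain ⟨i, hi⟩ := he
    refine ⟨0, ?_⟩
    have : ∏ i, ((((a i).choose (e i) : ℕ) : ℚ) *
      (((n i).factorial : ℚ) / (su S (k i) : ℚ)) ^ (a i - e i)) = 0 := by
      refine Finset.prod_eq_zero (Finset.mem_univ i) ?_
      rw [Nat.choose_eq_zero_of_lt hi]
      simp
    rw [this]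
    simp

theorem t : Pool.Agent.Helper43.RP.LB2 := by
  intro S hS m r c n lo k e E G hlo h hne
  have hz : ∀ a, ∃ z : ℤ, (su S E : ℚ) * ((c a : ℚ) * ∏ i, ((((a i).choose (e i) : ℕ) : ℚ) *
      (((n i).factorial : ℚ) / (su S (k i) : ℚ)) ^ (a i - e i))) =
      ((∏ i, RR (lo i) (n i) ^ (G i) : ℕ) : ℚ) * (z : ℚ) :=
    fun a => term_int2 hS c n lo k e E G hlo a (h a)
  choose z hz using hz
  have hE : (0 : ℚ) < (su S E : ℚ) := by exact_mod_cast su_pos hS E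
  have hER : (0 : ℝ) < (su S E : ℝ) := by exact_mod_cast su_pos hS E
  have hv : (su S E : ℚ) * Helper50.FE.val r c e (fun i => ((n i).factorial : ℚ) / (su S (k i) : ℚ)) =
      ((∏ i, RR (lo i) (n i) ^ (G i) : ℕ) : ℚ) * ((∑ a ∈ box r, z a : ℤ) : ℚ) := by
    unfold Helper50.FE.val
    rw [Finset.mul_sum, Int.cast_sum, Finset.mul_sum]
    exact Finset.sum_congr rfl fun a _ => hz a
  set v := Helper50.FE.val r c e (fun i => ((n i).factorial : ℚ) / (su S (k i) : ℚ)) with hvdef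
  have hZ : (∑ a ∈ box r, z a : ℤ) ≠ 0 := by
    intro h0
    rw [h0] at hv
    simp only [Int.cast_zero, mul_zero, mul_eq_zero] at hv
    rcases hv with hv | hv
    · exact hE.ne' hv
    · exact hne hv
  have hZ1 : (1 : ℝ) ≤ |((∑ a ∈ box r, z a : ℤ) : ℝ)| := by
    have := Int.one_le_abs hZ
    exact_mod_cast this
  have hprod : ∏ i, ((RR (lo i) (n i) : ℕ) : ℝ) ^ (G i) =
      ((∏ i, RR (lo i) (n i) ^ (G i) : ℕ) : ℝ) := by push_cast; rfl
  rw [hprod]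
  generalize hR : (∏ i, RR (lo i) (n i) ^ (G i) : ℕ) = R at hv ⊢
  have hvR : (su S E : ℝ) * ((v : ℚ) : ℝ) =
      (R : ℝ) * ((∑ a ∈ box r, z a : ℤ) : ℝ) := by
    exact_mod_cast hv
  rw [div_le_iff₀ hER]
  have h3 : |((v : ℚ) : ℝ)| * (su S E : ℝ) =
      (R : ℝ) * |((∑ a ∈ box r, z a : ℤ) : ℝ)| := by
    have h4 : |(su S E : ℝ) * ((v : ℚ) : ℝ)| = (su S E : ℝ) * |((v : ℚ) : ℝ)| := by
      rw [abs_mul, abs_of_pos hER]
    rw [mul_comm, ← h4, hvR, abs_mul, abs_of_nonneg (Nat.cast_nonneg R)]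
  rw [h3]
  exact le_mul_of_one_le_right (Nat.cast_nonneg R) hZ1

end Pool.Agent.Helper71.RP.LB
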